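import Pool.Agent.W930.CP_CLH

/-!
# Project CP: the list of arcs
-/

namespace Pool.Agent.W612.CPARCS

open Pool.Agent.W982.CP Pool.Agent.W930.CPCLH
open Pool.Agent.H243R3.TP (nxt nxt_lt f_nxt nxt_inj)

/-- The arcs of the tubes. -/
def base (f : ℕ → ℕ) (m : ℕ) : List (ℕ × ℕ) :=
  (List.range (3 * m)).flatMap fun o => (List.range 8).flatMap fun i =>
    (List.range 3).flatMap fun j =>
      [ringA o i j, (vx o i j, up f m o i j), (up f m o i j, vx o i j)]

/-- The arcs of the hexagons. -/
def hexa (sg : ℕ → Bool) (m : ℕ) : List (ℕ × ℕ) :=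
  (List.range m).flatMap fun c => (List.range 6).map fun q => (hv sg c q, hv sg c ((q + 1) % 6))

lemma up_lt {f : ℕ → ℕ} {m o i j : ℕ} (ho : o < 3 * m) (hi : i < 8) (hj : j < 3) :
    up f m o i j < 72 * m := by
  have := nxt_lt (f := f) ho
  unfold up vx
  split_ifs <;> omega

lemma bound {f : ℕ → ℕ} {sg : ℕ → Bool} {m : ℕ} : ∀ e ∈ arcs f sg m, e.1 < 72 * m ∧ e.2 < 72 * m := by
  intro e he
  unfold arcs at he
  rw [List.mem_append] at he
  rcases he with h | h
  · simp only [List.mem_flatMap, List.mem_range, List.mem_cons, List.not_mem_nil, or_false] at h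
    obtain ⟨o, ho, i, hi, j, hj, h | h | h⟩ := h
    · subst h
      have : (j + 1) % 3 < 3 := Nat.mod_lt _ (by norm_num)
      unfold ringA vx
      split_ifs <;> simp only <;> omega
    · subst h
      have := up_lt (f := f) ho hi hj
      simp only
      refine ⟨?_, this⟩
      unfold vx
      omega
    · subst h
      have := up_lt (f := f) ho hi hj
      simp only
      refine ⟨this, ?_⟩
      unfold vx
      omega
  · simp only [List.mem_flatMap, List.mem_range, List.mem_map] at h
    obtain ⟨c, hc, q, hq, rfl⟩ := h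
    obtain ⟨a1, a2, a3, -⟩ := hv_coord sg c q hq
    obtain ⟨b1, b2, b3, -⟩ := hv_coord sg c ((q + 1) % 6) (Nat.mod_lt _ (by norm_num))
    simp only
    constructor <;> omega

lemma length_arcs (f : ℕ → ℕ) (sg : ℕ → Bool) (m : ℕ) : (arcs f sg m).length = 222 * m := by
  unfold arcs
  rw [List.length_append, List.length_flatMap, List.length_flatMap]
  simp [List.length_flatMap]
  ring

lemma nodup_hexa (sg : ℕ → Bool) (m : ℕ) : (hexa sg m).Nodup := by
  unfold hexa
  rw [List.nodup_flatMap]
  constructor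
  · intro c _
    refine List.Nodup.map_on ?_ List.nodup_range
    intro x hx y hy hxy
    rw [Prod.mk.injEq] at hxy
    exact (hv_inj sg (List.mem_range.1 hx) (List.mem_range.1 hy) hxy.1).2
  · refine List.Pairwise.imp ?_ (List.nodup_range (n := m))
    intro a b hab
    simp only [Function.onFun]
    intro e h1 h2
    rw [List.mem_map] at h1 h2
    obtain ⟨q, hq, rfl⟩ := h1
    obtain ⟨q', hq', h⟩ := h2
    rw [Prod.mk.injEq] at h
    exact hab (hv_inj sg (List.mem_range.1 hq') (List.mem_range.1 hq) h.1).1.symm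

/-- The ring of a vertex. -/
def rg (u : ℕ) : ℕ := u % 24 / 3

lemma up_rg {f : ℕ → ℕ} {m o i j : ℕ} (hi : i < 8) (hj : j < 3) :
    rg (up f m o i j) = (i + 1) % 8 := by
  unfold rg up vx
  split_ifs with h
  · subst h
    omega
  · omega

lemma vx_rg {o i j : ℕ} (hi : i < 8) (hj : j < 3) : rg (vx o i j) = i := by
  unfold rg vx
  omega

lemma vx_inj {o i j o' i' j' : ℕ} (hi : i < 8) (hj : j < 3) (hi' : i' < 8) (hj' : j' < 3)
    (h : vx o i j = vx o' i' j') : o = o' ∧ i = i' ∧ j = j' := by
  unfold vx at h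
  omega

/-- The list of the three arcs of a vertex. -/
def tri (f : ℕ → ℕ) (m o i j : ℕ) : List (ℕ × ℕ) :=
  [ringA o i j, (vx o i j, up f m o i j), (up f m o i j, vx o i j)]

lemma ring_cases {o i j : ℕ} (hj : j < 3) : ∃ a b, a < 3 ∧ b < 3 ∧
    ringA o i j = (vx o i a, vx o i b) ∧ (i % 2 = 0 → a = j ∧ b = (j + 1) % 3) ∧
      (i % 2 = 1 → b = j ∧ a = (j + 1) % 3) := by
  unfold ringA
  split_ifs with h
  · exact ⟨j, (j + 1) % 3, hj, Nat.mod_lt _ (by norm_num), rfl, fun _ => ⟨rfl, rfl⟩,
      fun h2 => by omega⟩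
  · exact ⟨(j + 1) % 3, j, Nat.mod_lt _ (by norm_num), hj, rfl, fun h2 => by omega,
      fun _ => ⟨rfl, rfl⟩⟩

/-- The vertex of a base arc is determined. -/
lemma tri_inj {f : ℕ → ℕ} {m o i j o' i' j' : ℕ} (hi : i < 8) (hj : j < 3)
    (hi' : i' < 8) (hj' : j' < 3) {e : ℕ × ℕ} (h : e ∈ tri f m o i j) (h' : e ∈ tri f m o' i' j') :
    o = o' ∧ i = i' ∧ j = j' := by
  unfold tri at h h'
  simp only [List.mem_cons, List.not_mem_nil, or_false] at h h'
  obtain ⟨a, b, ha, hb, hr, h0, h1⟩ := ring_cases (o := o) (i := i) hj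
  obtain ⟨a', b', ha', hb', hr', h0', h1'⟩ := ring_cases (o := o') (i := i') hj'
  rw [hr] at h
  rw [hr'] at h'
  have r1 := up_rg (f := f) (m := m) (o := o) hi hj
  have r2 := up_rg (f := f) (m := m) (o := o') hi' hj'
  have v1 := vx_rg (o := o) hi hj
  have v2 := vx_rg (o := o') hi' hj'
  have va := vx_rg (o := o) hi ha
  have vb := vx_rg (o := o) hi hb
  have va' := vx_rg (o := o') hi' ha'
  have vb' := vx_rg (o := o') hi' hb'
  rcases h with rfl | rfl | rfl
  · rcases h' with h' | h' | h'
    · rw [Prod.mk.injEq] at h'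
      obtain ⟨e1, e2, e3⟩ := vx_inj hi ha hi' ha' h'.1
      obtain ⟨-, -, e4⟩ := vx_inj hi hb hi' hb' h'.2
      subst e1 e2
      refine ⟨rfl, rfl, ?_⟩
      rcases Nat.mod_two_eq_zero_or_one i with hp | hp
      · rw [← (h0 hp).1, ← (h0' hp).1, e3]
      · rw [← (h1 hp).1, ← (h1' hp).1, e4]
    · rw [Prod.mk.injEq] at h'
      rw [← h'.2] at r2
      rw [← h'.1] at v2
      omega
    · rw [Prod.mk.injEq] at h'
      rw [← h'.1] at r2
      rw [← h'.2] at v2
      omega
  · rcases h' with h' | h' | h'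
    · rw [Prod.mk.injEq] at h'
      rw [h'.2] at r1
      rw [h'.1] at v1
      omega
    · rw [Prod.mk.injEq] at h'
      exact vx_inj hi hj hi' hj' h'.1
    · rw [Prod.mk.injEq] at h'
      rw [h'.1] at v1
      rw [h'.2] at r1
      omega
  · rcases h' with h' | h' | h'
    · rw [Prod.mk.injEq] at h'
      rw [h'.1] at r1
      rw [h'.2] at v1
      omega
    · rw [Prod.mk.injEq] at h'
      rw [h'.1] at r1
      rw [h'.2] at v1
      omega
    · rw [Prod.mk.injEq] at h'
      exact vx_inj hi hj hi' hj' h'.2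

lemma tri_nodup {f : ℕ → ℕ} {m o i j : ℕ} (hi : i < 8) (hj : j < 3) : (tri f m o i j).Nodup := by
  unfold tri
  obtain ⟨a, b, ha, hb, hr, h0, h1⟩ := ring_cases (o := o) (i := i) hj
  rw [hr]
  have r1 := up_rg (f := f) (m := m) (o := o) hi hj
  have v1 := vx_rg (o := o) hi hj
  have va := vx_rg (o := o) hi ha
  have vb := vx_rg (o := o) hi hb
  rw [List.nodup_cons, List.nodup_cons]
  refine ⟨?_, ?_, List.nodup_singleton _⟩
  · intro h
    simp only [List.mem_cons, List.not_mem_nil, or_false, Prod.mk.injEq] at h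
    rcases h with h | h
    · rw [← h.2] at r1
      omega
    · rw [← h.1] at r1
      omega
  · intro h
    simp only [List.mem_cons, List.not_mem_nil, or_false, Prod.mk.injEq] at h
    rw [← h.1] at r1
    omega

lemma nodup_base (f : ℕ → ℕ) (m : ℕ) : (base f m).Nodup := by
  unfold base
  rw [List.nodup_flatMap]
  constructor
  · intro o _
    rw [List.nodup_flatMap]
    constructor
    · intro i hi
      rw [List.nodup_flatMap]
      constructor
      · intro j hj
        exact tri_nodup (List.mem_range.1 hi) (List.mem_range.1 hj)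
      · refine List.Pairwise.imp_of_mem ?_ (List.nodup_range (n := 3))
        intro a b ha hb hab
        simp only [Function.onFun]
        intro e h1 h2
        exact hab (tri_inj (List.mem_range.1 hi) (List.mem_range.1 ha) (List.mem_range.1 hi)
          (List.mem_range.1 hb) h1 h2).2.2
    · refine List.Pairwise.imp_of_mem ?_ (List.nodup_range (n := 8))
      intro a b ha hb hab
      simp only [Function.onFun]
      intro e h1 h2
      rw [List.mem_flatMap] at h1 h2
      obtain ⟨j, hj, h1⟩ := h1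
      obtain ⟨j', hj', h2⟩ := h2
      exact hab (tri_inj (List.mem_range.1 ha) (List.mem_range.1 hj) (List.mem_range.1 hb)
        (List.mem_range.1 hj') h1 h2).2.1
  · refine List.Pairwise.imp_of_mem ?_ (List.nodup_range (n := 3 * m))
    intro a b _ _ hab
    simp only [Function.onFun]
    intro e h1 h2
    rw [List.mem_flatMap] at h1 h2
    obtain ⟨i, hi, h1⟩ := h1
    obtain ⟨i', hi', h2⟩ := h2
    rw [List.mem_flatMap] at h1 h2
    obtain ⟨j, hj, h1⟩ := h1
    obtain ⟨j', hj', h2⟩ := h2
    exact hab (tri_inj (List.mem_range.1 hi) (List.mem_range.1 hj) (List.mem_range.1 hi')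
      (List.mem_range.1 hj') h1 h2).1

lemma base_not_hexa {f : ℕ → ℕ} {sg : ℕ → Bool} {m : ℕ} {e : ℕ × ℕ} (h1 : e ∈ base f m)
    (h2 : e ∈ hexa sg m) : False := by
  unfold hexa at h2
  simp only [List.mem_flatMap, List.mem_range, List.mem_map] at h2
  obtain ⟨c, hc, q, hq, rfl⟩ := h2
  obtain ⟨a1, a2, a3, -⟩ := hv_coord sg c q hq
  obtain ⟨b1, b2, b3, -⟩ := hv_coord sg c ((q + 1) % 6) (Nat.mod_lt _ (by norm_num))
  have hB : Base (hv sg c q) (hv sg c ((q + 1) % 6)) := by
    unfold base at h1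
    simp only [List.mem_flatMap, List.mem_range, List.mem_cons, List.not_mem_nil, or_false] at h1
    obtain ⟨o, ho, i, hi, j, hj, h | h | h⟩ := h1
    · obtain ⟨a, b, ha, hb, hr, -, -⟩ := ring_cases (o := o) (i := i) hj
      rw [hr, Prod.mk.injEq] at h
      rw [h.1, h.2]
      left
      unfold vx
      omega
    · rw [Prod.mk.injEq] at h
      rw [h.1, h.2]
      exact base_up f m o i j hi hj
    · rw [Prod.mk.injEq] at h
      rw [h.1, h.2]
      exact base_symm (base_up f m o i j hi hj)
  unfold Base at hB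
  omega

theorem t_ARCS : S_ARCS := by
  intro f sg m
  refine ⟨length_arcs f sg m, ?_, bound⟩
  have : arcs f sg m = base f m ++ hexa sg m := rfl
  rw [this, List.nodup_append]
  refine ⟨nodup_base f m, nodup_hexa sg m, ?_⟩
  intro a ha b hb hab
  subst hab
  exact base_not_hexa ha hb

end Pool.Agent.W612.CPARCS
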