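import Pool.Agent.W930.CP_CLH

/-!
# Project CP: closed 4-walks through ring arcs
-/

namespace Pool.Agent.W612.CPCL

open Pool.Agent.W982.CP Pool.Agent.W930.CPCLH
open Pool.Agent.H243R3.TP (nxt nxt_lt f_nxt nxt_inj)

/-- An upward arc. -/
def BU (f : ℕ → ℕ) (m u v : ℕ) : Prop :=
  ∃ o < 3 * m, ∃ i < 8, ∃ j < 3, u = vx o i j ∧ v = up f m o i j

/-- A ring arc. -/
def BR (u v : ℕ) : Prop :=
  u / 24 = v / 24 ∧ u % 24 / 3 = v % 24 / 3 ∧
    (u % 24 / 3 % 2 = 0 → v % 3 = (u % 3 + 1) % 3) ∧
    (u % 24 / 3 % 2 = 1 → u % 3 = (v % 3 + 1) % 3)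

lemma mem_arcs' {f : ℕ → ℕ} {sg : ℕ → Bool} {m u v : ℕ} (h : (u, v) ∈ arcs f sg m) :
    (∃ c < m, ∃ q < 6, u = hv sg c q ∧ v = hv sg c ((q + 1) % 6)) ∨
      BR u v ∨ BU f m u v ∨ BU f m v u := by
  unfold arcs at h
  rw [List.mem_append] at h
  rcases h with h | h
  · right
    simp only [List.mem_flatMap, List.mem_range, List.mem_cons, List.not_mem_nil, or_false] at h
    obtain ⟨o, ho, i, hi, j, hj, h | h | h⟩ := h
    · left
      unfold ringA at h
      split_ifs at h with h2
      · rw [Prod.mk.injEq] at h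
        obtain ⟨rfl, rfl⟩ := h
        unfold BR vx
        have : (j + 1) % 3 < 3 := Nat.mod_lt _ (by norm_num)
        omega
      · rw [Prod.mk.injEq] at h
        obtain ⟨rfl, rfl⟩ := h
        unfold BR vx
        have : (j + 1) % 3 < 3 := Nat.mod_lt _ (by norm_num)
        omega
    · rw [Prod.mk.injEq] at h
      right; left
      exact ⟨o, ho, i, hi, j, hj, h.1, h.2⟩
    · rw [Prod.mk.injEq] at h
      right; right
      exact ⟨o, ho, i, hi, j, hj, h.2, h.1⟩
  · left
    simp only [List.mem_flatMap, List.mem_range, List.mem_map, Prod.mk.injEq] at h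
    obtain ⟨c, hc, q, hq, rfl, rfl⟩ := h
    exact ⟨c, hc, q, hq, rfl, rfl⟩

lemma bu_coord {f : ℕ → ℕ} {m u v : ℕ} (h : BU f m u v) :
    v % 24 / 3 = (u % 24 / 3 + 1) % 8 ∧ v % 3 = u % 3 ∧
      (u / 24 = v / 24 ∨ (21 ≤ u % 24 ∧ v % 24 < 3)) := by
  obtain ⟨o, -, i, hi, j, hj, rfl, rfl⟩ := h
  unfold up vx
  split_ifs with h
  · subst h
    generalize nxt f (3 * m) o = n
    omega
  · omega

lemma key {f : ℕ → ℕ} {sg : ℕ → Bool} {m o i z w y x : ℕ} (hi : i < 8)
    (hzw : (i % 2 = 0 ∧ z = vx o i 1 ∧ w = vx o i 0) ∨ (i % 2 = 1 ∧ z = vx o i 0 ∧ w = vx o i 1))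
    (h1 : (z, y) ∈ arcs f sg m) (h2 : (y, x) ∈ arcs f sg m) (h3 : (x, w) ∈ arcs f sg m) :
    (BU f m z y ∧ BU f m w x) ∨ (BU f m y z ∧ BU f m x w) := by
  have hz : z / 24 = o ∧ z % 24 / 3 = i ∧ w / 24 = o ∧ w % 24 / 3 = i ∧
      ((i % 2 = 0 ∧ z % 3 = 1 ∧ w % 3 = 0) ∨ (i % 2 = 1 ∧ z % 3 = 0 ∧ w % 3 = 1)) := by
    unfold vx at hzw
    omega
  clear hzw
  rcases mem_arcs' h1 with ⟨c, hc, q, hq, rfl, rfl⟩ | a1
  · exfalso
    obtain ⟨k1, k2, k3, k4⟩ := hv_coord sg c q hq
    obtain ⟨l1, l2, l3, l4⟩ := hv_coord sg c ((q + 1) % 6) (Nat.mod_lt _ (by norm_num))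
    rcases mem_arcs' h3 with ⟨c', hc', q', hq', rfl, rfl⟩ | a3
    · obtain ⟨n1, n2, n3, n4⟩ := hv_coord sg c' q' hq'
      obtain ⟨p1, p2, p3, p4⟩ := hv_coord sg c' ((q' + 1) % 6) (Nat.mod_lt _ (by norm_num))
      rcases mem_arcs' h2 with ⟨c2, hc2, q2, hq2, e1, e2⟩ | a2
      · obtain ⟨e3, e4⟩ := hv_inj sg (Nat.mod_lt _ (by norm_num)) hq2 e1
        obtain ⟨e5, e6⟩ := hv_inj sg hq' (Nat.mod_lt _ (by norm_num)) e2
        omega
      · rcases a2 with a2 | a2 | a2
        · unfold BR at a2
          omega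
        · have := bu_coord a2
          omega
        · have := bu_coord a2
          omega
    · have hx : x / 24 = o := by
        rcases a3 with a3 | a3 | a3
        · unfold BR at a3
          omega
        · have := bu_coord a3
          omega
        · have := bu_coord a3
          omega
      rcases mem_arcs' h2 with ⟨c2, hc2, q2, hq2, e1, e2⟩ | a2
      · obtain ⟨e3, e4⟩ := hv_inj sg (Nat.mod_lt _ (by norm_num)) hq2 e1
        obtain ⟨p1, -⟩ := hv_coord sg c2 ((q2 + 1) % 6) (Nat.mod_lt _ (by norm_num))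
        rw [← e2] at p1
        omega
      · rcases a2 with a2 | a2 | a2
        · unfold BR at a2
          omega
        · have := bu_coord a2
          omega
        · have := bu_coord a2
          omega
  · have hy : (z % 24 < 21 → 3 ≤ z % 24 → y / 24 = o) ∧
        (y % 24 / 3 = i ∨ y % 24 / 3 = (i + 1) % 8 ∨ i = (y % 24 / 3 + 1) % 8) := by
      rcases a1 with a1 | a1 | a1
      · unfold BR at a1
        omega
      · have := bu_coord a1
        omega
      · have := bu_coord a1
        omega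
    rcases mem_arcs' h3 with ⟨c', hc', q', hq', rfl, rfl⟩ | a3
    · exfalso
      obtain ⟨n1, n2, n3, n4⟩ := hv_coord sg c' q' hq'
      obtain ⟨p1, p2, p3, p4⟩ := hv_coord sg c' ((q' + 1) % 6) (Nat.mod_lt _ (by norm_num))
      rcases mem_arcs' h2 with ⟨c2, hc2, q2, hq2, e1, e2⟩ | a2
      · obtain ⟨e5, e6⟩ := hv_inj sg hq' (Nat.mod_lt _ (by norm_num)) e2
        obtain ⟨l1, -⟩ := hv_coord sg c2 q2 hq2
        rw [← e1] at l1
        omega
      · rcases a2 with a2 | a2 | a2
        · unfold BR at a2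
          omega
        · have := bu_coord a2
          omega
        · have := bu_coord a2
          omega
    · rcases mem_arcs' h2 with ⟨c2, hc2, q2, hq2, e1, e2⟩ | a2
      · exfalso
        obtain ⟨l1, l2, l3, -⟩ := hv_coord sg c2 q2 hq2
        obtain ⟨p1, p2, p3, -⟩ := hv_coord sg c2 ((q2 + 1) % 6) (Nat.mod_lt _ (by norm_num))
        rw [← e1] at l1 l2 l3
        rw [← e2] at p1 p2 p3
        have hx : x / 24 = o := by
          rcases a3 with a3 | a3 | a3
          · unfold BR at a3
            omega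
          · have := bu_coord a3
            omega
          · have := bu_coord a3
            omega
        have hy' : y / 24 = o := by
          rcases a1 with a1 | a1 | a1
          · unfold BR at a1
            omega
          · have := bu_coord a1
            omega
          · have := bu_coord a1
            omega
        omega
      · have b2 : BR y x ∨ (x % 24 / 3 = (y % 24 / 3 + 1) % 8 ∧ x % 3 = y % 3) ∨
            (y % 24 / 3 = (x % 24 / 3 + 1) % 8 ∧ x % 3 = y % 3) := by
          rcases a2 with a2 | a2 | a2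
          · exact Or.inl a2
          · have := bu_coord a2
            omega
          · have := bu_coord a2
            omega
        rcases a1 with a1 | a1 | a1
        · exfalso
          unfold BR at a1 b2
          rcases a3 with a3 | a3 | a3
          · unfold BR at a3
            omega
          · have := bu_coord a3
            omega
          · have := bu_coord a3
            omega
        · rcases a3 with a3 | a3 | a3
          · exfalso
            have := bu_coord a1
            unfold BR at a3 b2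
            omega
          · exfalso
            have c1 := bu_coord a1
            have c3 := bu_coord a3
            unfold BR at b2
            omega
          · exact Or.inl ⟨a1, a3⟩
        · rcases a3 with a3 | a3 | a3
          · exfalso
            have := bu_coord a1
            unfold BR at a3 b2
            omega
          · exact Or.inr ⟨a1, a3⟩
          · exfalso
            have c1 := bu_coord a1
            have c3 := bu_coord a3
            unfold BR at b2
            omega

lemma bu_up {f : ℕ → ℕ} {m o i j v : ℕ} (hi : i < 8) (hj : j < 3) (h : BU f m (vx o i j) v) :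
    v = up f m o i j := by
  obtain ⟨o1, h1, i1, h2, j1, h3, e1, e2⟩ := h
  unfold vx at e1
  have e3 : o = o1 := by omega
  have e4 : i = i1 := by omega
  have e5 : j = j1 := by omega
  subst e3 e4 e5
  exact e2

theorem t_CL0 : S_CL0 := by
  intro f sg m o i y x ho hi hp h1 h2 h3
  rcases key hi (Or.inl ⟨hp, rfl, rfl⟩) h1 h2 h3 with ⟨a, b⟩ | ⟨a, b⟩
  · exact Or.inl ⟨bu_up hi (by norm_num) a, bu_up hi (by norm_num) b⟩
  · right
    obtain ⟨o1, ho1, i1, hi1, j1, hj1, rfl, e1⟩ := a
    obtain ⟨o2, ho2, i2, hi2, j2, hj2, rfl, e2⟩ := b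
    have n1 := f_nxt (f := f) ho1
    have n2 := nxt_inj (f := f) ho1 ho2
    unfold up at e1 e2
    by_cases h7 : i1 = 7
    · subst h7
      rw [if_pos rfl] at e1
      have e3 : nxt f (3 * m) o1 = o ∧ i = 0 ∧ j1 = 1 := by
        unfold vx at e1
        omega
      obtain ⟨e3, e4, e5⟩ := e3
      have h72 : i2 = 7 := by
        by_contra hne
        rw [if_neg hne] at e2
        unfold vx at e2
        omega
      rw [if_pos h72] at e2
      have e6 : nxt f (3 * m) o2 = o ∧ j2 = 0 := by
        unfold vx at e2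
        omega
      have e7 := n2 (e3.trans e6.1.symm)
      refine ⟨o1, ho1, 7, by norm_num, by omega, ?_, ?_, ?_, ?_⟩
      · rw [← n1, e3]
      · intro j
        unfold up
        rw [if_pos rfl, e3, e4]
      · rw [e5]
      · rw [e7, h72, e6.2]
    · rw [if_neg h7] at e1
      have e3 : o1 = o ∧ i1 + 1 = i ∧ j1 = 1 := by
        unfold vx at e1
        omega
      obtain ⟨e3, e4, e5⟩ := e3
      have h72 : i2 ≠ 7 := by
        intro h72
        rw [if_pos h72] at e2
        unfold vx at e2
        omega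
      rw [if_neg h72] at e2
      have e6 : o2 = o ∧ i2 + 1 = i ∧ j2 = 0 := by
        unfold vx at e2
        omega
      obtain ⟨e6, e7, e8⟩ := e6
      refine ⟨o1, ho1, i1, hi1, by omega, by rw [e3], ?_, ?_, ?_⟩
      · intro j
        unfold up
        rw [if_neg h7, e3, e4]
      · rw [e5]
      · rw [e6, e8, e3, show i2 = i1 by omega]

theorem t_CL1 : S_CL1 := by
  intro f sg m o i y x ho hi hp h1 h2 h3
  rcases key hi (Or.inr ⟨hp, rfl, rfl⟩) h1 h2 h3 with ⟨a, b⟩ | ⟨a, b⟩
  · exact Or.inl ⟨bu_up hi (by norm_num) a, bu_up hi (by norm_num) b⟩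
  · right
    obtain ⟨o1, ho1, i1, hi1, j1, hj1, rfl, e1⟩ := a
    obtain ⟨o2, ho2, i2, hi2, j2, hj2, rfl, e2⟩ := b
    unfold up vx at e1 e2
    split_ifs at e1 e2 with h7 h72 <;> unfold vx <;> omega

end Pool.Agent.W612.CPCL
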