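import Pool.Agent.W982.CP.Gr

/-!
# Project CP: soundness of the digraph
-/

namespace Pool.Agent.W612.CP

open Pool.Agent.W982.CP
open Pool.Agent.H243R3.TP (nxt nxt_lt f_nxt nxt_inj nxt_trans)

/-- The quadruple of the closed walk `a b c d` whose arc `(a, b)` has type `τ`. -/
def rotq (τ a b c d : ℕ) : Quad :=
  if τ = 3 then (a, b, c, d) else if τ = 2 then (d, a, b, c) else if τ = 1 then (c, d, a, b)
  else (b, c, d, a)

theorem rotq_inj {τ a b c d a' b' c' d' : ℕ} (h : rotq τ a b c d = rotq τ a' b' c' d') :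
    a = a' ∧ b = b' ∧ c = c' ∧ d = d' := by
  unfold rotq at h
  split_ifs at h <;> simp only [Prod.mk.injEq] at h <;> tauto

theorem rotq_rot {τ : ℕ} (hτ : τ < 4) (a b c d : ℕ) :
    rotq τ a b c d = rotq ((τ + 2) % 4) c d a b := by
  interval_cases τ <;> simp [rotq]

theorem mem_rect_rotq {τ : ℕ} (hτ : τ < 4) (a b c d : ℕ) (B : Blob) :
    B ∈ rect (rotq τ a b c d) ↔ B = ((a, b), τ) ∨ B = ((b, c), (τ + 3) % 4) ∨
      B = ((c, d), (τ + 2) % 4) ∨ B = ((d, a), (τ + 1) % 4) := by
  interval_cases τ <;> simp [rotq, rect] <;> tauto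

theorem exists_rotq {τ a b : ℕ} (hτ : τ < 4) {q : Quad} (h : ((a, b), τ) ∈ rect q) :
    ∃ c d, q = rotq τ a b c d := by
  obtain ⟨w, z, y, x⟩ := q
  simp only [rect, List.mem_cons, Prod.mk.injEq, List.not_mem_nil, or_false] at h
  rcases h with ⟨⟨rfl, rfl⟩, rfl⟩ | ⟨⟨rfl, rfl⟩, rfl⟩ | ⟨⟨rfl, rfl⟩, rfl⟩ | ⟨⟨rfl, rfl⟩, rfl⟩
  · exact ⟨y, x, by simp [rotq]⟩
  · exact ⟨x, w, by simp [rotq]⟩
  · exact ⟨w, z, by simp [rotq]⟩
  · exact ⟨z, y, by simp [rotq]⟩

theorem closed_rotq {τ : ℕ} (hτ : τ < 4) {a b c d : ℕ} {E : List (ℕ × ℕ)}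
    (h : Closed E (rotq τ a b c d)) :
    (a, b) ∈ E ∧ (b, c) ∈ E ∧ (c, d) ∈ E ∧ (d, a) ∈ E := by
  interval_cases τ <;> simp [rotq, Closed] at h <;> tauto

section

variable (f : ℕ → ℕ) (m : ℕ)

/-- The blob of the arc number `0` of a ring. -/
def be (o i : ℕ) : Blob := (ringA o i 0, (f o % 2 + 2 * i) % 4)

/-- The square of a level. -/
def sq (o i : ℕ) : Quad :=
  if i % 2 = 0 then
    rotq ((f o % 2 + 2 * i) % 4) (vx o i 0) (vx o i 1) (up f m o i 1) (up f m o i 0)
  else rotq ((f o % 2 + 2 * i) % 4) (vx o i 1) (vx o i 0) (up f m o i 0) (up f m o i 1)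

/-- The level `(o', i')` is above the level `(o, i)`. -/
def Nx (o i o' i' : ℕ) : Prop :=
  o' < 3 * m ∧ i' < 8 ∧ (i + 1) % 8 = i' ∧ f o' = f o ∧ ∀ j, up f m o i j = vx o' i' j

variable {f m}

theorem nx_succ {o i : ℕ} (ho : o < 3 * m) (hi : i < 7) : Nx f m o i o (i + 1) := by
  refine ⟨ho, by omega, by omega, rfl, fun j => ?_⟩
  unfold up
  rw [if_neg (by omega)]

theorem nx_last {o : ℕ} (ho : o < 3 * m) : Nx f m o 7 (nxt f (3 * m) o) 0 := by
  refine ⟨nxt_lt ho, by omega, by omega, f_nxt ho, fun j => ?_⟩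
  unfold up
  rw [if_pos rfl]

theorem nx_unique {o i o1 i1 o2 i2 : ℕ} (h1o : o1 < 3 * m) (h2o : o2 < 3 * m) (h1i : i1 < 8)
    (h2i : i2 < 8) (h1 : Nx f m o1 i1 o i) (h2 : Nx f m o2 i2 o i) : o1 = o2 ∧ i1 = i2 := by
  obtain ⟨a1, a2, a3, a4, a5⟩ := h1
  obtain ⟨b1, b2, b3, b4, b5⟩ := h2
  have hi : i1 = i2 := by omega
  subst hi
  refine ⟨?_, rfl⟩
  have h := (a5 0).trans (b5 0).symm
  unfold up vx at h
  split_ifs at h with h7
  · exact nxt_inj (f := f) h1o h2o (by omega)
  · omega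

theorem be_mem_sq {o i : ℕ} : be f o i ∈ rect (sq f m o i) := by
  unfold sq be ringA
  split_ifs with h
  · rw [mem_rect_rotq (Nat.mod_lt _ (by norm_num))]
    exact Or.inl (by simp)
  · rw [mem_rect_rotq (Nat.mod_lt _ (by norm_num))]
    exact Or.inl (by simp)

/-- The square seen from the level above. -/
theorem sq_eq_above {o i o' i' : ℕ} (hi : i < 8) (h : Nx f m o i o' i') :
    sq f m o i = if i' % 2 = 0 then
      rotq ((f o' % 2 + 2 * i') % 4) (vx o' i' 0) (vx o' i' 1) (vx o i 1) (vx o i 0)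
    else rotq ((f o' % 2 + 2 * i') % 4) (vx o' i' 1) (vx o' i' 0) (vx o i 0) (vx o i 1) := by
  obtain ⟨a1, a2, a3, a4, a5⟩ := h
  unfold sq
  rw [a5 0, a5 1, a4]
  have ht : (f o % 2 + 2 * i' ) % 4 = ((f o % 2 + 2 * i) % 4 + 2) % 4 := by omega
  rcases Nat.mod_two_eq_zero_or_one i with hp | hp
  · rw [if_pos hp, if_neg (by omega), ht]
    exact rotq_rot (Nat.mod_lt _ (by norm_num)) _ _ _ _
  · rw [if_neg (by omega), if_pos (by omega), ht]
    exact rotq_rot (Nat.mod_lt _ (by norm_num)) _ _ _ _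

theorem be_mem_below {o i o' i' : ℕ} (hi : i < 8) (h : Nx f m o i o' i') :
    be f o' i' ∈ rect (sq f m o i) := by
  rw [sq_eq_above hi h]
  unfold be ringA
  split_ifs with hp
  · rw [mem_rect_rotq (Nat.mod_lt _ (by norm_num))]
    exact Or.inl (by simp)
  · rw [mem_rect_rotq (Nat.mod_lt _ (by norm_num))]
    exact Or.inl (by simp)

theorem up_ring (o i j : ℕ) (hi : i < 8) (hj : j < 3) :
    (up f m o i j) % 24 / 3 = (i + 1) % 8 := by
  unfold up vx
  split_ifs with h
  · subst h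
    omega
  · omega

theorem vx_ring (o i j : ℕ) (hi : i < 8) (hj : j < 3) : (vx o i j) % 24 / 3 = i := by
  unfold vx
  omega

theorem sq_ne {o i o' i' : ℕ} (hi : i < 8) (h : Nx f m o i o' i') :
    sq f m o' i' ≠ sq f m o i := by
  intro he
  rw [sq_eq_above hi h] at he
  obtain ⟨a1, a2, a3, a4, a5⟩ := h
  unfold sq at he
  have u1 := up_ring (f := f) (m := m) o' i' 1 a2 (by norm_num)
  have u0 := up_ring (f := f) (m := m) o' i' 0 a2 (by norm_num)
  have v1 := vx_ring o i 1 hi (by norm_num)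
  have v0 := vx_ring o i 0 hi (by norm_num)
  split_ifs at he with hp
  · obtain ⟨-, -, h3, -⟩ := rotq_inj he
    rw [h3] at u1
    omega
  · obtain ⟨-, -, h3, -⟩ := rotq_inj he
    rw [h3] at u0
    omega

variable {sg : ℕ → Bool}

/-- Who covers the blob of a level. -/
theorem cover_cases (hC0 : S_CL0) (hC1 : S_CL1) {o i : ℕ} (ho : o < 3 * m) (hi : i < 8)
    {q : Quad} (hq : Closed (arcs f sg m) q) (hb : be f o i ∈ rect q) :
    q = sq f m o i ∨ ∃ o' < 3 * m, ∃ i' < 8, Nx f m o' i' o i ∧ q = sq f m o' i' := by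
  have hτ : (f o % 2 + 2 * i) % 4 < 4 := Nat.mod_lt _ (by norm_num)
  rcases Nat.mod_two_eq_zero_or_one i with hp | hp
  · have hb' : ((vx o i 0, vx o i 1), (f o % 2 + 2 * i) % 4) ∈ rect q := by
      have := hb
      unfold be ringA at this
      rw [if_pos hp] at this
      simpa using this
    obtain ⟨y, x, rfl⟩ := exists_rotq hτ hb'
    obtain ⟨-, h2, h3, h4⟩ := closed_rotq hτ hq
    rcases hC0 f sg m o i y x ho hi hp h2 h3 h4 with ⟨rfl, rfl⟩ | ⟨o', ho', i', hi', e1, e2, e3, rfl, rfl⟩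
    · left
      unfold sq
      rw [if_pos hp]
    · right
      have hn : Nx f m o' i' o i := ⟨ho, hi, e1, e2.symm, e3⟩
      refine ⟨o', ho', i', hi', hn, ?_⟩
      rw [sq_eq_above hi' hn, if_pos hp]
  · have hb' : ((vx o i 1, vx o i 0), (f o % 2 + 2 * i) % 4) ∈ rect q := by
      have := hb
      unfold be ringA at this
      rw [if_neg (by omega)] at this
      simpa using this
    obtain ⟨y, x, rfl⟩ := exists_rotq hτ hb'
    obtain ⟨-, h2, h3, h4⟩ := closed_rotq hτ hq
    rcases hC1 f sg m o i y x ho hi hp h2 h3 h4 with ⟨rfl, rfl⟩ | ⟨rfl, rfl⟩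
    · left
      unfold sq
      rw [if_neg (by omega)]
    · right
      have hn : Nx f m o (i - 1) o i := by
        have := nx_succ (f := f) (m := m) (o := o) (i := i - 1) ho (by omega)
        rwa [show i - 1 + 1 = i by omega] at this
      refine ⟨o, ho, i - 1, by omega, hn, ?_⟩
      rw [sq_eq_above (by omega) hn, if_neg (by omega)]

/-- The squares of the levels of a tube alternate. -/
theorem alt (hC0 : S_CL0) (hC1 : S_CL1) {R : Finset Quad}
    (hR : ∀ q ∈ R, Closed (arcs f sg m) q)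
    (hD : ∀ q ∈ R, ∀ q' ∈ R, ∀ b, b ∈ rect q → b ∈ rect q' → q = q')
    {o i o' i' : ℕ} (ho : o < 3 * m) (hi : i < 8) (hn : Nx f m o i o' i')
    (hc : ∃ q ∈ R, be f o' i' ∈ rect q) :
    (sq f m o' i' ∈ R ↔ sq f m o i ∉ R) := by
  constructor
  · intro h1 h2
    exact sq_ne hi hn (hD _ h1 _ h2 _ be_mem_sq (be_mem_below hi hn))
  · intro h
    obtain ⟨q, hq, hqb⟩ := hc
    rcases cover_cases hC0 hC1 hn.1 hn.2.1 (hR q hq) hqb with rfl | ⟨o2, ho2, i2, hi2, hn2, rfl⟩
    · exact hq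
    · obtain ⟨rfl, rfl⟩ := nx_unique ho2 ho hi2 hi hn2 hn
      exact absurd hq h

theorem levels (hC0 : S_CL0) (hC1 : S_CL1) {R : Finset Quad}
    (hR : ∀ q ∈ R, Closed (arcs f sg m) q)
    (hD : ∀ q ∈ R, ∀ q' ∈ R, ∀ b, b ∈ rect q → b ∈ rect q' → q = q')
    {o : ℕ} (ho : o < 3 * m) (hc : ∀ i < 8, ∃ q ∈ R, be f o i ∈ rect q) :
    ∀ i < 8, (sq f m o i ∈ R ↔ (sq f m o 0 ∈ R ↔ i % 2 = 0)) := by
  intro i
  induction i with
  | zero => intro _; simp
  | succ i ih =>
    intro hi
    rw [alt hC0 hC1 hR hD ho (by omega) (nx_succ ho (by omega)) (hc _ hi), ih (by omega)]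
    have : ((i + 1) % 2 = 0 ↔ ¬ i % 2 = 0) := by omega
    rw [this]
    tauto

theorem same (hC0 : S_CL0) (hC1 : S_CL1) {R : Finset Quad}
    (hR : ∀ q ∈ R, Closed (arcs f sg m) q)
    (hD : ∀ q ∈ R, ∀ q' ∈ R, ∀ b, b ∈ rect q → b ∈ rect q' → q = q')
    {o : ℕ} (ho : o < 3 * m)
    (hc : ∀ o' < 3 * m, f o' = f o → ∀ i < 8, ∃ q ∈ R, be f o' i ∈ rect q) :
    ∀ o' < 3 * m, f o' = f o → (sq f m o' 0 ∈ R ↔ sq f m o 0 ∈ R) := by
  have step : ∀ k < 3 * m, f k = f o → (sq f m (nxt f (3 * m) k) 0 ∈ R ↔ sq f m k 0 ∈ R) := by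
    intro k hk hfk
    rw [alt hC0 hC1 hR hD hk (by norm_num) (nx_last hk)
      (hc _ (nxt_lt hk) ((f_nxt hk).trans hfk) 0 (by norm_num)),
      levels hC0 hC1 hR hD hk (hc k hk hfk) 7 (by norm_num)]
    simp
  intro o' ho' hf
  by_cases h : sq f m o 0 ∈ R
  · have := nxt_trans (f := f) (n := 3 * m) (S := fun k => sq f m k 0 ∈ R) ho
      (fun k hk hfk hS => (step k hk hfk).2 hS) h o' ho' hf
    exact iff_of_true this h
  · have := nxt_trans (f := f) (n := 3 * m) (S := fun k => sq f m k 0 ∉ R) ho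
      (fun k hk hfk hS => fun h2 => hS ((step k hk hfk).1 h2)) h o' ho' hf
    exact iff_of_false this h

/-- The first position. -/
theorem fo_spec {o : ℕ} (ho : o < 3 * m) : fo f m (f o) < 3 * m ∧ f (fo f m (f o)) = f o := by
  unfold fo
  rw [List.head?_filter]
  rcases h : (List.range (3 * m)).find? (fun k => decide (f k = f o)) with _ | k
  · rw [List.find?_eq_none] at h
    exact absurd (h o (List.mem_range.2 ho)) (by simp)
  · rw [List.find?_range_eq_some] at h
    obtain ⟨h1, h2, -⟩ := h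
    simp only [decide_eq_true_eq, List.mem_range] at h1 h2
    exact ⟨h2, h1⟩

/-- The meaning of the marks. -/
theorem marks (hC0 : S_CL0) (hC1 : S_CL1) {R : Finset Quad}
    (hR : ∀ q ∈ R, Closed (arcs f sg m) q) {o : ℕ} (ho : o < 3 * m) :
    (∃ q ∈ R, mk1 f m (f o) ∈ rect q ∧ mk2 f m (f o) ∈ rect q) ↔
      sq f m (fo f m (f o)) 0 ∈ R := by
  obtain ⟨h1, h2⟩ := fo_spec (f := f) (m := m) ho
  set p := fo f m (f o) with hp
  have hm1 : mk1 f m (f o) = be f p 0 := by
    unfold mk1 be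
    rw [← hp, h2]
    congr 1
    omega
  have hm2 : mk2 f m (f o) = ((up f m p 0 0, vx p 0 0), f o % 2 + 1) := by
    unfold mk2
    rw [← hp]
  constructor
  · rintro ⟨q, hq, ha, hb⟩
    rw [hm1] at ha
    rcases cover_cases hC0 hC1 h1 (by norm_num) (hR q hq) ha with rfl | ⟨o2, ho2, i2, hi2, hn2, rfl⟩
    · exact hq
    · exfalso
      rw [hm2, sq_eq_above hi2 hn2, if_pos (by norm_num),
        mem_rect_rotq (Nat.mod_lt _ (by norm_num))] at hb
      have e : i2 = 7 := by
        have := hn2.2.2.1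
        omega
      subst e
      unfold up vx at hb
      simp only [Prod.mk.injEq] at hb
      rw [if_neg (by norm_num)] at hb
      omega
  · intro hq
    refine ⟨_, hq, ?_, ?_⟩
    · rw [hm1]
      exact be_mem_sq
    · rw [hm2]
      unfold sq
      rw [if_pos (by norm_num), mem_rect_rotq (Nat.mod_lt _ (by norm_num)), h2]
      right; right; right
      congr 1
      omega

/-- The blob of the arc number `0` of the hexagon. -/
def hb (sg : ℕ → Bool) (c : ℕ) : Blob := ((hv sg c 0, hv sg c 1), 0)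

theorem mem_ring {o i : ℕ} (ho : o < 3 * m) (hi : i < 8) : ringA o i 0 ∈ arcs f sg m := by
  unfold arcs
  rw [List.mem_append]
  left
  rw [List.mem_flatMap]
  refine ⟨o, List.mem_range.2 ho, ?_⟩
  rw [List.mem_flatMap]
  refine ⟨i, List.mem_range.2 hi, ?_⟩
  rw [List.mem_flatMap]
  exact ⟨0, List.mem_range.2 (by norm_num), by simp⟩

theorem mem_hex {c : ℕ} (hc : c < m) : (hv sg c 0, hv sg c 1) ∈ arcs f sg m := by
  unfold arcs
  rw [List.mem_append]
  right
  rw [List.mem_flatMap]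
  refine ⟨c, List.mem_range.2 hc, ?_⟩
  rw [List.mem_map]
  exact ⟨0, List.mem_range.2 (by norm_num), rfl⟩

theorem mem_blobs {E : List (ℕ × ℕ)} {e : ℕ × ℕ} {τ : ℕ} (he : e ∈ E) (hτ : τ < 4) :
    (e, τ) ∈ blobs E := by
  unfold blobs
  rw [List.mem_flatMap]
  exact ⟨e, he, List.mem_map.2 ⟨τ, List.mem_range.2 hτ, rfl⟩⟩

theorem be_mem_blobs {o i : ℕ} (ho : o < 3 * m) (hi : i < 8) :
    be f o i ∈ blobs (arcs f sg m) := mem_blobs (mem_ring ho hi) (Nat.mod_lt _ (by norm_num))

theorem hb_mem_blobs {c : ℕ} (hc : c < m) :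
    hb sg c ∈ blobs (arcs f sg m) := mem_blobs (mem_hex hc) (by norm_num)

/-- The chord of the window number `p` in the square of the position `3 c + p`. -/
theorem chord (hC0 : S_CL0) (hC1 : S_CL1) {R : Finset Quad}
    (hR : ∀ q ∈ R, Closed (arcs f sg m) q)
    (hD : ∀ q ∈ R, ∀ q' ∈ R, ∀ b, b ∈ rect q → b ∈ rect q' → q = q')
    {c o : ℕ} (ho : o < 3 * m) {q : Quad} (hq : q ∈ R) (hq0 : hb sg c ∈ rect q)
    (hcov : ∀ o' < 3 * m, f o' = f o → ∀ i < 8, ∃ q ∈ R, be f o' i ∈ rect q)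
    (hv0 : ∀ i, (i = if sg o = true then 3 else 2) →
      ∃ b, b ∈ rect q ∧ b ∈ rect (sq f m o i)) :
    (sq f m (fo f m (f o)) 0 ∈ R ↔ sg o = true) := by
  obtain ⟨h1, h2⟩ := fo_spec (f := f) (m := m) ho
  have hs := same hC0 hC1 hR hD ho hcov _ h1 h2
  rw [hs]
  set i : ℕ := if sg o = true then 3 else 2 with hi
  have hi8 : i < 8 := by
    rw [hi]
    split_ifs <;> norm_num
  have hi23 : i = 3 ∨ i = 2 := by
    rw [hi]
    split_ifs <;> simp
  have hl := levels hC0 hC1 hR hD ho (fun i hi => hcov o ho rfl i hi) i hi8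
  have hnot : sq f m o i ∉ R := by
    intro hin
    obtain ⟨b, hb1, hb2⟩ := hv0 i hi
    have := hD q hq _ hin b hb1 hb2
    rw [this] at hq0
    have hx : ∀ j < 3, vx o i j / 24 = o := by
      intro j hj
      unfold vx
      omega
    have hu : ∀ j < 3, up f m o i j / 24 = o := by
      intro j hj
      unfold up vx
      rw [if_neg (by omega)]
      omega
    have hr0 : hv sg c 0 / 24 = 3 * c := by
      unfold hv vx rho
      simp only [if_true]
      split_ifs <;> omega
    have hr1 : hv sg c 1 / 24 = 3 * c + 1 := by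
      unfold hv vx rho
      simp only [one_ne_zero, if_false, if_true]
      split_ifs <;> omega
    have key : hv sg c 0 / 24 = o ∧ hv sg c 1 / 24 = o := by
      unfold hb sq at hq0
      have hx0 := hx 0 (by norm_num)
      have hx1 := hx 1 (by norm_num)
      have hu0 := hu 0 (by norm_num)
      have hu1 := hu 1 (by norm_num)
      split_ifs at hq0 with hp
      · rw [mem_rect_rotq (Nat.mod_lt _ (by norm_num))] at hq0
        simp only [Prod.mk.injEq] at hq0
        rcases hq0 with ⟨⟨e1, e2⟩, -⟩ | ⟨⟨e1, e2⟩, -⟩ | ⟨⟨e1, e2⟩, -⟩ | ⟨⟨e1, e2⟩, -⟩ <;>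
          rw [e1, e2] <;> constructor <;> assumption
      · rw [mem_rect_rotq (Nat.mod_lt _ (by norm_num))] at hq0
        simp only [Prod.mk.injEq] at hq0
        rcases hq0 with ⟨⟨e1, e2⟩, -⟩ | ⟨⟨e1, e2⟩, -⟩ | ⟨⟨e1, e2⟩, -⟩ | ⟨⟨e1, e2⟩, -⟩ <;>
          rw [e1, e2] <;> constructor <;> assumption
    omega
  rcases Bool.eq_false_or_eq_true (sg o) with hsg | hsg
  · have h3 : i = 3 := by rw [hi, if_pos hsg]
    rw [h3] at hl hnot
    simp only [hsg, iff_true]
    by_contra hne
    exact hnot (hl.2 (iff_of_false hne (by norm_num)))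
  · have h3 : i = 2 := by rw [hi, if_neg (by simp [hsg])]
    rw [h3] at hl hnot
    simp only [hsg, Bool.false_eq_true, iff_false]
    intro hne
    exact hnot (hl.2 (iff_of_true hne (by norm_num)))

/-- The scope of a clause. -/
def Scope (f : ℕ → ℕ) (sg : ℕ → Bool) (m c : ℕ) (b : Blob) : Prop :=
  b = hb sg c ∨ ∃ o < 3 * m, ∃ i < 8,
    (f o = f (3 * c) ∨ f o = f (3 * c + 1) ∨ f o = f (3 * c + 2)) ∧ b = be f o i

theorem bad_clause (hC0 : S_CL0) (hC1 : S_CL1) (hCH : S_CLH)
    (hpar : ∀ o < 3 * m, f o % 2 = if o % 3 = 2 then 1 else 0) {R : Finset Quad}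
    (hR : ∀ q ∈ R, Closed (arcs f sg m) q)
    (hD : ∀ q ∈ R, ∀ q' ∈ R, ∀ b, b ∈ rect q → b ∈ rect q' → q = q')
    {c : ℕ} (hc : c < m)
    (hbad : ∀ p < 3, ¬ (sq f m (fo f m (f (3 * c + p))) 0 ∈ R ↔ sg (3 * c + p) = true)) :
    ∃ b ∈ blobs (arcs f sg m), Scope f sg m c b ∧ ∀ q ∈ R, b ∉ rect q := by
  by_contra hcon
  push Not at hcon
  have hcov : ∀ p < 3, ∀ o' < 3 * m, f o' = f (3 * c + p) → ∀ i < 8,
      ∃ q ∈ R, be f o' i ∈ rect q := by
    intro p hp o' ho' hf i hi
    refine hcon _ (be_mem_blobs ho' hi) (Or.inr ⟨o', ho', i, hi, ?_, rfl⟩)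
    interval_cases p
    · exact Or.inl hf
    · exact Or.inr (Or.inl hf)
    · exact Or.inr (Or.inr hf)
  obtain ⟨q, hq, hqb⟩ := hcon _ (hb_mem_blobs hc) (Or.inl rfl)
  obtain ⟨y, x, hqe⟩ := exists_rotq (by norm_num) hqb
  have hcl := hR q hq
  rw [hqe] at hcl
  obtain ⟨-, g2, g3, g4⟩ := closed_rotq (by norm_num) hcl
  rcases hCH f sg m c y x hc g2 g3 g4 with ⟨rfl, rfl⟩ | ⟨rfl, rfl⟩ | ⟨rfl, rfl⟩
  · refine hbad 0 (by norm_num) (chord hC0 hC1 hR hD (by omega) hq hqb
      (hcov 0 (by norm_num)) ?_)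
    intro i hi
    refine ⟨((hv sg c 3, hv sg c 0), 1), ?_, ?_⟩
    · rw [hqe, mem_rect_rotq (by norm_num)]
      right; right; right
      rfl
    · have hs : f (3 * c) % 2 = 0 := by
        have := hpar (3 * c) (by omega)
        rwa [if_neg (by omega)] at this
      unfold sq
      rw [hi]
      simp only [add_zero]
      by_cases hsg : sg (3 * c) = true
      · rw [if_pos hsg, if_neg (by norm_num), mem_rect_rotq (Nat.mod_lt _ (by norm_num)), hs]
        right; left
        simp [hv, rho, up, hsg]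
      · rw [if_neg hsg, if_pos (by norm_num), mem_rect_rotq (Nat.mod_lt _ (by norm_num)), hs]
        right; right; right
        simp [hv, rho, up, hsg]
  · refine hbad 2 (by norm_num) (chord hC0 hC1 hR hD (by omega) hq hqb
      (hcov 2 (by norm_num)) ?_)
    intro i hi
    refine ⟨((hv sg c 2, hv sg c 5), 2), ?_, ?_⟩
    · rw [hqe, mem_rect_rotq (by norm_num)]
      right; right; left
      rfl
    · have hs : f (3 * c + 2) % 2 = 1 := by
        have := hpar (3 * c + 2) (by omega)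
        rwa [if_pos (by omega)] at this
      unfold sq
      rw [hi]
      by_cases hsg : sg (3 * c + 2) = true
      · rw [if_pos hsg, if_neg (by norm_num), mem_rect_rotq (Nat.mod_lt _ (by norm_num)), hs]
        right; left
        simp [hv, rho, up, hsg]
      · rw [if_neg hsg, if_pos (by norm_num), mem_rect_rotq (Nat.mod_lt _ (by norm_num)), hs]
        right; right; right
        simp [hv, rho, up, hsg]
  · refine hbad 1 (by norm_num) (chord hC0 hC1 hR hD (by omega) hq hqb
      (hcov 1 (by norm_num)) ?_)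
    intro i hi
    refine ⟨((hv sg c 1, hv sg c 4), 3), ?_, ?_⟩
    · rw [hqe, mem_rect_rotq (by norm_num)]
      right; left
      rfl
    · have hs : f (3 * c + 1) % 2 = 0 := by
        have := hpar (3 * c + 1) (by omega)
        rwa [if_neg (by omega)] at this
      unfold sq
      rw [hi]
      by_cases hsg : sg (3 * c + 1) = true
      · rw [if_pos hsg, if_neg (by norm_num), mem_rect_rotq (Nat.mod_lt _ (by norm_num)), hs]
        right; right; right
        simp [hv, rho, up, hsg]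
      · rw [if_neg hsg, if_pos (by norm_num), mem_rect_rotq (Nat.mod_lt _ (by norm_num)), hs]
        right; left
        simp [hv, rho, up, hsg]

theorem hb_ne_be {c o i : ℕ} : hb sg c ≠ be f o i := by
  intro h
  unfold hb be at h
  simp only [Prod.mk.injEq] at h
  obtain ⟨h, -⟩ := h
  have h0 : hv sg c 0 / 24 = 3 * c := by
    unfold hv vx rho
    simp only [if_true]
    split_ifs <;> omega
  have h1 : hv sg c 1 / 24 = 3 * c + 1 := by
    unfold hv vx rho
    simp only [one_ne_zero, if_false, if_true]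
    split_ifs <;> omega
  unfold ringA vx at h
  split_ifs at h <;> simp only [Prod.mk.injEq] at h <;> omega

theorem hb_inj {c c' : ℕ} (h : hb sg c = hb sg c') : c = c' := by
  unfold hb at h
  simp only [Prod.mk.injEq] at h
  obtain ⟨⟨h, -⟩, -⟩ := h
  unfold hv vx rho at h
  simp only [if_true] at h
  split_ifs at h <;> omega

theorem be_inj {o i o' i' : ℕ} (hi : i < 8) (hi' : i' < 8) (h : be f o i = be f o' i') :
    o = o' := by
  unfold be ringA vx at h
  split_ifs at h <;> simp only [Prod.mk.injEq] at h <;> omega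

open Classical in
theorem scope_card {Δ : ℕ} (hΔ : 1 ≤ Δ)
    (hcount : ∀ v, ((List.range (3 * m)).filter fun o => decide (f o = v)).length ≤ Δ) (b : Blob) :
    ((Finset.range m).filter fun c => Scope f sg m c b).card ≤ Δ := by
  by_cases hh : ∃ c, b = hb sg c
  · obtain ⟨c, rfl⟩ := hh
    refine le_trans ?_ hΔ
    rw [Finset.card_le_one]
    have key : ∀ x, Scope f sg m x (hb sg c) → x = c := by
      intro x hx
      rcases hx with hx | ⟨o, ho, i, hi, -, hx⟩
      · exact (hb_inj hx).symm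
      · exact absurd hx hb_ne_be
    intro x hx y hy
    rw [key x (Finset.mem_filter.1 hx).2, key y (Finset.mem_filter.1 hy).2]
  · by_cases hb2 : ∃ o < 3 * m, ∃ i < 8, b = be f o i
    · obtain ⟨o, ho, i, hi, rfl⟩ := hb2
      have hsub : ((Finset.range m).filter fun c => Scope f sg m c (be f o i)) ⊆
          (((List.range (3 * m)).filter fun k => decide (f k = f o)).toFinset).image
            (fun k => k / 3) := by
        intro c hc
        obtain ⟨hc1, hc2⟩ := Finset.mem_filter.1 hc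
        rw [Finset.mem_range] at hc1
        rcases hc2 with hc2 | ⟨o', ho', i', hi', hf, hc2⟩
        · exact absurd ⟨c, hc2⟩ hh
        · have ho2 := be_inj hi hi' hc2
          subst ho2
          rw [Finset.mem_image]
          rcases hf with hf | hf | hf
          · refine ⟨3 * c, ?_, by omega⟩
            rw [List.mem_toFinset, List.mem_filter, List.mem_range]
            exact ⟨by omega, by simp [hf]⟩
          · refine ⟨3 * c + 1, ?_, by omega⟩
            rw [List.mem_toFinset, List.mem_filter, List.mem_range]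
            exact ⟨by omega, by simp [hf]⟩
          · refine ⟨3 * c + 2, ?_, by omega⟩
            rw [List.mem_toFinset, List.mem_filter, List.mem_range]
            exact ⟨by omega, by simp [hf]⟩
      calc _ ≤ _ := Finset.card_le_card hsub
        _ ≤ _ := Finset.card_image_le
        _ ≤ _ := List.toFinset_card_le _
        _ ≤ Δ := hcount _
    · have : ((Finset.range m).filter fun c => Scope f sg m c b) = ∅ := by
        rw [Finset.filter_eq_empty_iff]
        intro c _ hs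
        rcases hs with hs | ⟨o, ho, i, hi, -, hs⟩
        · exact hh ⟨c, hs⟩
        · exact hb2 ⟨o, ho, i, hi, hs⟩
      rw [this]
      simp

end

open Classical in
/-- Soundness of the digraph. -/
theorem t_GS : S_ARCS → S_CL0 → S_CL1 → S_CLH → S_GS := by
  intro _ hC0 hC1 hCH f sg m Δ hΔ hpar hcount R hR hD
  set val : ℕ → Bool := fun v => decide (∃ q ∈ R, mk1 f m v ∈ rect q ∧ mk2 f m v ∈ rect q)
    with hval
  set U : Finset Blob := ((blobs (arcs f sg m)).filter fun b =>
    decide (∀ q ∈ R, b ∉ rect q)).toFinset with hU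
  set B : Finset ℕ := ((List.range m).filter fun c =>
    decide (val (f (3 * c)) ≠ sg (3 * c) ∧ val (f (3 * c + 1)) ≠ sg (3 * c + 1) ∧
      val (f (3 * c + 2)) ≠ sg (3 * c + 2))).toFinset with hB
  have hlen : uns f sg m val = B.card := by
    rw [hB, List.toFinset_card_of_nodup (List.Nodup.filter _ List.nodup_range)]
    rfl
  have hv : ∀ o < 3 * m, (val (f o) = sg o ↔ (sq f m (fo f m (f o)) 0 ∈ R ↔ sg o = true)) := by
    intro o ho
    have := marks hC0 hC1 hR ho
    rw [← this, hval]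
    simp only
    by_cases h : ∃ q ∈ R, mk1 f m (f o) ∈ rect q ∧ mk2 f m (f o) ∈ rect q
    · simp only [h, decide_true, true_iff]
      exact eq_comm
    · simp only [h, decide_false, false_iff]
      rw [eq_comm]
      exact Bool.not_eq_true _ ▸ Iff.rfl
  have hex : ∀ c ∈ B, ∃ b ∈ U, Scope f sg m c b := by
    intro c hc
    rw [hB, List.mem_toFinset, List.mem_filter, List.mem_range] at hc
    obtain ⟨hcm, hc2⟩ := hc
    rw [decide_eq_true_eq] at hc2
    obtain ⟨b, hb1, hb2, hb3⟩ := bad_clause hC0 hC1 hCH hpar hR hD hcm (by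
      intro p hp
      rw [← hv (3 * c + p) (by omega)]
      interval_cases p
      · exact hc2.1
      · exact hc2.2.1
      · exact hc2.2.2)
    refine ⟨b, ?_, hb2⟩
    rw [hU, List.mem_toFinset, List.mem_filter]
    exact ⟨hb1, by simpa using hb3⟩
  choose! g hg1 hg2 using hex
  have hcard : B.card ≤ Δ * (B.image g).card := by
    refine Finset.card_le_mul_card_image B Δ ?_
    intro b _
    refine le_trans (Finset.card_le_card ?_) (scope_card (f := f) (sg := sg) (m := m) hΔ hcount b)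
    intro c hc
    obtain ⟨h1, h2⟩ := Finset.mem_filter.1 hc
    rw [Finset.mem_filter]
    refine ⟨?_, ?_⟩
    · rw [hB, List.mem_toFinset, List.mem_filter] at h1
      exact Finset.mem_range.2 (List.mem_range.1 h1.1)
    · have := hg2 c h1
      rwa [h2] at this
  have himg : (B.image g).card ≤ U.card := by
    refine Finset.card_le_card ?_
    intro b hb
    obtain ⟨c, hc, rfl⟩ := Finset.mem_image.1 hb
    exact hg1 c hc
  have hUl : U.card ≤ ((blobs (arcs f sg m)).filter fun b =>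
      decide (∀ q ∈ R, b ∉ rect q)).length := List.toFinset_card_le _
  calc uns f sg m val = B.card := hlen
    _ ≤ Δ * (B.image g).card := hcard
    _ ≤ Δ * _ := Nat.mul_le_mul_left _ (himg.trans hUl)

end Pool.Agent.W612.CP
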